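import Pool.Agent.W8.ST.Stm

/-! Project ST (helper8), task SolE: the solution set is a linear space. -/

set_option autoImplicit false

open scoped ContDiff
open Pool.Agent.W8.ST

namespace Pool.Agent.W444.ST.SolE

theorem pd_smooth {n : ℕ} (i : Fin n) {u : V n → ℝ} (hu : ContDiff ℝ ∞ u) :
    ContDiff ℝ ∞ (pd i u) := by
  have h1 : ContDiff ℝ ∞ (fderiv ℝ u) := hu.fderiv_right (m := ∞) (by simp)
  exact h1.clm_apply contDiff_const

theorem pd_add {n : ℕ} (i : Fin n) {u u' : V n → ℝ} (hu : ContDiff ℝ ∞ u)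
    (hu' : ContDiff ℝ ∞ u') : pd i (u + u') = pd i u + pd i u' := by
  funext x
  have h1 : DifferentiableAt ℝ u x := (hu.differentiable (by simp)).differentiableAt
  have h2 : DifferentiableAt ℝ u' x := (hu'.differentiable (by simp)).differentiableAt
  simp only [pd, Pi.add_apply]
  rw [fderiv_add h1 h2]
  rfl

theorem pd_smul {n : ℕ} (i : Fin n) (c : ℝ) {u : V n → ℝ} (hu : ContDiff ℝ ∞ u) :
    pd i (c • u) = c • pd i u := by
  funext x
  have h1 : DifferentiableAt ℝ u x := (hu.differentiable (by simp)).differentiableAt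
  simp only [pd, Pi.smul_apply]
  rw [fderiv_const_smul h1]
  rfl

theorem sol_add (lam sig : ℝ) (u u' : V 4 → ℝ) (h : Sol lam sig u) (h' : Sol lam sig u') :
    Sol lam sig (u + u') := by
  obtain ⟨hs, hp, he, hb⟩ := h
  obtain ⟨hs', hp', he', hb'⟩ := h'
  refine ⟨hs.add hs', ?_, ?_, ?_⟩
  · intro x hx i
    simp only [Pi.add_apply, hp x hx i, hp' x hx i]
  · intro x hx
    have e := he x hx
    have e' := he' x hx
    rw [pd_add 0 hs hs', pd_add 1 hs hs', pd_add 2 hs hs', pd_add 3 hs hs',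
      pd_add 0 (pd_smooth 0 hs) (pd_smooth 0 hs'), pd_add 1 (pd_smooth 1 hs) (pd_smooth 1 hs'),
      pd_add 2 (pd_smooth 2 hs) (pd_smooth 2 hs'), pd_add 3 (pd_smooth 3 hs) (pd_smooth 3 hs')]
    simp only [Pi.add_apply]
    linear_combination e + e'
  · intro x hx
    have e := hb x hx
    have e' := hb' x hx
    rw [pd_add 0 hs hs']
    simp only [Pi.add_apply]
    linear_combination e + e'

theorem sol_smul (lam sig : ℝ) (c : ℝ) (u : V 4 → ℝ) (h : Sol lam sig u) :
    Sol lam sig (c • u) := by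
  obtain ⟨hs, hp, he, hb⟩ := h
  refine ⟨contDiff_const.smul hs, ?_, ?_, ?_⟩
  · intro x hx i
    simp only [Pi.smul_apply, hp x hx i]
  · intro x hx
    have e := he x hx
    rw [pd_smul 0 c hs, pd_smul 1 c hs, pd_smul 2 c hs, pd_smul 3 c hs,
      pd_smul 0 c (pd_smooth 0 hs), pd_smul 1 c (pd_smooth 1 hs),
      pd_smul 2 c (pd_smooth 2 hs), pd_smul 3 c (pd_smooth 3 hs)]
    simp only [Pi.smul_apply, smul_eq_mul]
    linear_combination c * e
  · intro x hx
    have e := hb x hx
    rw [pd_smul 0 c hs]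
    simp only [Pi.smul_apply, smul_eq_mul]
    linear_combination c * e

theorem sol_zero (lam sig : ℝ) : Sol lam sig (0 : V 4 → ℝ) := by
  have hs : ContDiff ℝ ∞ (0 : V 4 → ℝ) := contDiff_const
  have hz : ∀ i : Fin 4, pd i (0 : V 4 → ℝ) = 0 := by
    intro i
    have h := pd_smul i 0 hs
    simpa using h
  refine ⟨hs, ?_, ?_, ?_⟩
  · intro x _ i; rfl
  · intro x _
    rw [hz 0, hz 1, hz 2, hz 3, hz 0, hz 1, hz 2, hz 3]
    simp
  · intro x _
    rw [hz 0]
    simp

theorem SolE_proof : SolE := by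
  refine ⟨?_, sol_add, sol_smul⟩
  intro lam sig v
  constructor
  · intro hv
    refine Submodule.span_induction (p := fun v _ => ∃ u, Sol lam sig u ∧ ∀ x : strip 3, v x = u x)
      ?_ ?_ ?_ ?_ hv
    · intro w hw; exact hw
    · exact ⟨0, sol_zero lam sig, fun x => rfl⟩
    · rintro w w' _ _ ⟨u, hu, e⟩ ⟨u', hu', e'⟩
      exact ⟨u + u', sol_add lam sig u u' hu hu', fun x => by
        simp only [Pi.add_apply, e x, e' x]⟩
    · rintro c w _ ⟨u, hu, e⟩
      exact ⟨c • u, sol_smul lam sig c u hu, fun x => by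
        simp only [Pi.smul_apply, e x]⟩
  · intro h
    exact Submodule.subset_span h

end Pool.Agent.W444.ST.SolE
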